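import Pool.Agent.Y714.KF.Stm

set_option autoImplicit false

/-! # From powers of integers to real numbers; generators of the field -/

namespace Pool.Agent.Y488.KF

open NumberField FractionalIdeal Module Finset ComplexConjugate MeasureTheory Filter Topology
open Pool.Agent.Y714.KF

theorem mono : S_MONO := by
  intro f hf k hk c h
  have hk0 : (k : ℝ) ≠ 0 := by exact_mod_cast (by omega : k ≠ 0)
  have hkp : (0 : ℝ) < 1 / (k : ℝ) := by positivity
  set Y : ℝ → ℕ := fun t => ⌊t ^ (1 / (k : ℝ))⌋₊ with hYd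
  have hY : Tendsto Y atTop atTop := tendsto_nat_floor_atTop.comp (tendsto_rpow_atTop hkp)
  have hlow : ∀ᶠ t : ℝ in atTop, 0 < t ∧ 1 ≤ Y t ∧ (Y t : ℝ) ^ k ≤ t ∧
      t ≤ ((Y t : ℝ) + 1) ^ k := by
    filter_upwards [hY.eventually_ge_atTop 1, eventually_ge_atTop (1 : ℝ)] with t h1 ht
    have h2 : (Y t : ℝ) ≤ t ^ (1 / (k : ℝ)) := Nat.floor_le (by positivity)
    have h3 : t ^ (1 / (k : ℝ)) < Y t + 1 := Nat.lt_floor_add_one _
    have h4 : (t ^ (1 / (k : ℝ))) ^ k = t := by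
      rw [← Real.rpow_natCast, ← Real.rpow_mul (by linarith), one_div_mul_cancel hk0,
        Real.rpow_one]
    refine ⟨by linarith, h1, ?_, ?_⟩
    · calc (Y t : ℝ) ^ k ≤ (t ^ (1 / (k : ℝ))) ^ k := pow_le_pow_left₀ (by positivity) h2 k
        _ = t := h4
    · calc t = (t ^ (1 / (k : ℝ))) ^ k := h4.symm
        _ ≤ _ := pow_le_pow_left₀ (by positivity) h3.le k
  have r0 : Tendsto (fun t => (Y t : ℝ) / ((Y t : ℝ) + 1)) atTop (𝓝 1) :=
    (tendsto_natCast_div_add_atTop (1 : ℝ)).comp hY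
  have r1 : Tendsto (fun t => ((Y t : ℝ) / ((Y t : ℝ) + 1)) ^ k) atTop (𝓝 1) := by
    have := r0.pow k
    rwa [one_pow] at this
  have a1 : Tendsto (fun t => (Y t : ℝ) ^ k / t) atTop (𝓝 1) := by
    refine tendsto_of_tendsto_of_tendsto_of_le_of_le' r1 tendsto_const_nhds ?_ ?_
    · filter_upwards [hlow] with t ht
      rw [div_pow]
      exact div_le_div_of_nonneg_left (by positivity) ht.1 ht.2.2.2
    · filter_upwards [hlow] with t ht
      rw [div_le_one ht.1]
      exact ht.2.2.1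
  have a2 : Tendsto (fun t => ((Y t : ℝ) + 1) ^ k / t) atTop (𝓝 1) := by
    have := a1.div r1 one_ne_zero
    rw [_root_.div_one] at this
    refine this.congr' ?_
    filter_upwards [hlow] with t ht
    have hy : (0 : ℝ) < Y t := by exact_mod_cast ht.2.1
    have ht0 := ht.1
    simp only [Pi.div_apply]
    rw [div_pow]
    field_simp
  have b1 : Tendsto (fun t => f ((Y t : ℝ) ^ k) / (Y t : ℝ) ^ k * ((Y t : ℝ) ^ k / t)) atTop
      (𝓝 (c * 1)) := (h.comp hY).mul a1
  have hY1 : Tendsto (fun t => Y t + 1) atTop atTop :=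
    tendsto_atTop_mono (fun t => Nat.le_succ (Y t)) hY
  have b2 : Tendsto (fun t => f (((Y t + 1 : ℕ) : ℝ) ^ k) / ((Y t + 1 : ℕ) : ℝ) ^ k *
      (((Y t : ℝ) + 1) ^ k / t)) atTop (𝓝 (c * 1)) := (h.comp hY1).mul a2
  rw [mul_one] at b1 b2
  refine tendsto_of_tendsto_of_tendsto_of_le_of_le' b1 b2 ?_ ?_
  · filter_upwards [hlow] with t ht
    have hy : (0 : ℝ) < Y t := by exact_mod_cast ht.2.1
    have ht0 := ht.1
    have e : f ((Y t : ℝ) ^ k) / (Y t : ℝ) ^ k * ((Y t : ℝ) ^ k / t) = f ((Y t : ℝ) ^ k) / t := by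
      field_simp
    rw [e]
    exact div_le_div_of_nonneg_right (hf ht.2.2.1) ht0.le
  · filter_upwards [hlow] with t ht
    have hy : (0 : ℝ) < (Y t : ℝ) + 1 := by positivity
    have ht0 := ht.1
    have e : f (((Y t + 1 : ℕ) : ℝ) ^ k) / ((Y t + 1 : ℕ) : ℝ) ^ k *
      (((Y t : ℝ) + 1) ^ k / t) = f (((Y t : ℝ) + 1) ^ k) / t := by
      push_cast
      field_simp
    rw [e]
    exact div_le_div_of_nonneg_right (hf ht.2.2.2) ht0.le

variable (K : Type) [Field K] [NumberField K]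

theorem gen : S_GEN K := by
  intro θ
  rw [Field.primitive_element_iff_algHom_eq_of_eval' ℚ ℂ (fun x => IsAlgClosed.splits _) θ]
  constructor
  · intro h σ τ hne hbr
    apply hne
    have h0 : (σ 1 : ℂ) * τ θ - σ θ * τ 1 = 0 := hbr
    rw [map_one, map_one, one_mul, mul_one, sub_eq_zero] at h0
    have h2 := @h (RingHom.equivRatAlgHom K ℂ σ) (RingHom.equivRatAlgHom K ℂ τ) h0.symm
    exact (RingHom.equivRatAlgHom K ℂ).injective h2
  · intro h φ ψ hφψ
    by_contra hne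
    have h1 := h ((RingHom.equivRatAlgHom K ℂ).symm φ) ((RingHom.equivRatAlgHom K ℂ).symm ψ)
      (fun e => hne ((RingHom.equivRatAlgHom K ℂ).symm.injective e))
    apply h1
    have h2 : φ θ = ψ θ := hφψ
    show (φ 1 : ℂ) * ψ θ - φ θ * ψ 1 = 0
    rw [map_one, map_one, h2]
    ring

end Pool.Agent.Y488.KF
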